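import Mathlib
import Pool.Agent.N546.PN.Stm

/-!
# A smooth limit of families with good points has good points (part CLO of project PN)
-/

set_option autoImplicit false
set_option linter.all false

namespace Pool.Agent.N514.PN

open Pool.Agent.N546.PN Filter Topology

/-- Scaling of the variables. -/
theorem val_smul {n D : ℕ} {K : Type} [CommRing K] (c : Mon n D → K) (t : K)
    (x : Fin (n + 1) → K) : val c (t • x) = t ^ D * val c x := by
  unfold val
  rw [Finset.mul_sum]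
  refine Finset.sum_congr rfl fun m _ => ?_
  have h : ∑ i, m.1 i = D := (Finset.mem_piAntidiag.mp m.2).1
  simp only [Pi.smul_apply, smul_eq_mul, mul_pow, Finset.prod_mul_distrib,
    Finset.prod_pow_eq_pow_sum, h]
  ring

theorem val_zero {n D : ℕ} {K : Type} [CommRing K] (c : Mon n (D + 1) → K) :
    val c (0 : Fin (n + 1) → K) = 0 := by
  have h := val_smul c (0 : K) (0 : Fin (n + 1) → K)
  rw [smul_zero] at h
  rw [h, zero_pow (Nat.succ_ne_zero D), zero_mul]

theorem pt_smul {ι : Type} {n : ℕ} {e : ι → ℕ} (T : Typ ι e) {K : Type} [Field K]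
    (c : (k : ι) → Mon n (e k + 1) → K) (x : Fin (n + 1) → K) (t : K) (ht : t ≠ 0)
    (h : Pt T c x) : Pt T c (t • x) := by
  refine ⟨fun k => ?_, ?_⟩
  · rw [val_smul]
    exact mul_ne_zero (pow_ne_zero _ ht) (h.1 k)
  · have h' := T.sc K _ t ht h.2
    have e' : (fun k => val (c k) (t • x)) = fun k => t ^ (e k + 1) * val (c k) x := by
      funext k
      exact val_smul _ _ _
    rw [e']
    exact h'

/-- Joint continuity of the value. -/
theorem val_tendsto {n D : ℕ} {K : Type} [NontriviallyNormedField K] (c : ℕ → Mon n D → K)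
    (c₀ : Mon n D → K) (x : ℕ → Fin (n + 1) → K) (x₀ : Fin (n + 1) → K)
    (hc : ∀ m, Tendsto (fun j => c j m) atTop (𝓝 (c₀ m)))
    (hx : ∀ i, Tendsto (fun j => x j i) atTop (𝓝 (x₀ i))) :
    Tendsto (fun j => val (c j) (x j)) atTop (𝓝 (val c₀ x₀)) := by
  unfold val
  refine tendsto_finset_sum _ fun m _ => (hc m).mul ?_
  exact tendsto_finset_prod _ fun i _ => (hx i).pow _

theorem val_cont {n D : ℕ} {K : Type} [NontriviallyNormedField K] (c : Mon n D → K) :
    Continuous (fun x => val c x) := by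
  unfold val
  refine continuous_finset_sum _ fun m _ => continuous_const.mul ?_
  exact continuous_finset_prod _ fun i _ => (continuous_apply i).pow _

/-- A smooth limit of families with good points has good points. -/
theorem clo_ (K : Type) [NontriviallyNormedField K] [ProperSpace K] (h1 : S_SQO K)
    (h2 : S_OPN K) : S_CLO K := by
  classical
  intro n ι _ _ e T c c₀ hc hx hs
  rcases isEmpty_or_nonempty ι with hι | hι
  · obtain ⟨x, hx⟩ := hx 0
    refine ⟨x, fun k => isEmptyElim k, ?_⟩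
    have h : (fun k => val (c₀ k) x) = (fun k => val (c 0 k) x) := Subsingleton.elim _ _
    rw [h]
    exact hx.2
  -- points in a compact shell
  obtain ⟨q, hq⟩ := NormedField.exists_one_lt_norm K
  have hx' : ∀ j, ∃ x, Pt T (c j) x ∧ 1 / ‖q‖ ≤ ‖x‖ ∧ ‖x‖ < 1 := by
    intro j
    obtain ⟨x, hx⟩ := hx j
    have hx0 : x ≠ 0 := by
      rintro rfl
      exact hx.1 (Classical.arbitrary ι) (val_zero _)
    obtain ⟨t, ht0, ha, hb, -⟩ := rescale_to_shell hq one_pos hx0
    exact ⟨t • x, pt_smul T (c j) x t ht0 hx, hb, ha⟩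
  choose y hy1 hy2 hy3 using hx'
  obtain ⟨x, -, φ, hφ, hlim⟩ := tendsto_subseq_of_bounded
    (Metric.isBounded_closedBall (x := (0 : Fin (n + 1) → K)) (r := 1))
    (x := y) (fun j => by
      rw [Metric.mem_closedBall, dist_zero_right]
      exact (hy3 j).le)
  have hx0 : x ≠ 0 := by
    have h : 1 / ‖q‖ ≤ ‖x‖ := ge_of_tendsto' (hlim.norm) (fun j => hy2 (φ j))
    rintro rfl
    rw [norm_zero] at h
    have : 0 < 1 / ‖q‖ := by positivity
    linarith
  -- the moduli
  have hδ : ∀ k, ∃ δ : ℝ, 0 < δ ∧ (val (c₀ k) x ≠ 0 → ∀ a' : K, ‖a' - val (c₀ k) x‖ < δ →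
      ∃ z : K, z ≠ 0 ∧ a' = val (c₀ k) x * z ^ 2) := by
    intro k
    by_cases h : val (c₀ k) x = 0
    · exact ⟨1, one_pos, fun h' => absurd h h'⟩
    · obtain ⟨δ, h0, h'⟩ := h1 _ h
      exact ⟨δ, h0, fun _ => h'⟩
  choose δ hδ0 hδ1 using hδ
  have hV : {x' : Fin (n + 1) → K | ∀ k, ‖val (c₀ k) x' - val (c₀ k) x‖ < δ k} ∈ 𝓝 x := by
    have h : ∀ k, ∀ᶠ x' in 𝓝 x, ‖val (c₀ k) x' - val (c₀ k) x‖ < δ k := by
      intro k
      have h' : Tendsto (fun x' => ‖val (c₀ k) x' - val (c₀ k) x‖) (𝓝 x) (𝓝 0) := by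
        have h'' := (((val_cont (c₀ k)).tendsto x).sub_const (val (c₀ k) x)).norm
        simpa using h''
      exact h'.eventually (gt_mem_nhds (hδ0 k))
    exact eventually_all.mpr h
  obtain ⟨η, hη0, hη⟩ := h2 n ι e c₀ x (Finset.univ.filter (fun k => val (c₀ k) x = 0))
    (fun l hl h => hs x l hx0 hl (fun k hk => (Finset.mem_filter.mp (h k hk)).2)) _ hV
  -- the values along the sequence
  have ht : ∀ k, Tendsto (fun j => ‖val (c (φ j) k) (y (φ j)) - val (c₀ k) x‖) atTop (𝓝 0) := by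
    intro k
    have h := val_tendsto (fun j => c (φ j) k) (c₀ k) (fun j => y (φ j)) x
      (fun m => by
        have h' := (tendsto_pi_nhds.mp ((tendsto_pi_nhds.mp hc) k)) m
        exact h'.comp hφ.tendsto_atTop)
      (fun i => (tendsto_pi_nhds.mp hlim) i)
    simpa using (h.sub_const (val (c₀ k) x)).norm
  have hev : ∀ᶠ j in atTop, ∀ k, ‖val (c (φ j) k) (y (φ j)) - val (c₀ k) x‖ < min η (δ k) :=
    eventually_all.mpr fun k => (ht k).eventually (gt_mem_nhds (lt_min hη0 (hδ0 k)))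
  obtain ⟨j, hj⟩ := hev.exists
  obtain ⟨x', hx'V, hx'⟩ := hη (fun k => val (c (φ j) k) (y (φ j)))
    (fun k _ => lt_of_lt_of_le (hj k) (min_le_left _ _))
  have hz : ∀ k, ∃ z : K, z ≠ 0 ∧ val (c₀ k) x' = val (c (φ j) k) (y (φ j)) * z ^ 2 := by
    intro k
    by_cases h : val (c₀ k) x = 0
    · refine ⟨1, one_ne_zero, ?_⟩
      rw [hx' k (Finset.mem_filter.mpr ⟨Finset.mem_univ k, h⟩), one_pow, mul_one]
    · obtain ⟨z1, hz1, e1⟩ := hδ1 k h _ (lt_of_lt_of_le (hj k) (min_le_right _ _))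
      obtain ⟨z2, hz2, e2⟩ := hδ1 k h _ (hx'V k)
      refine ⟨z2 / z1, div_ne_zero hz2 hz1, ?_⟩
      rw [e1, e2]
      field_simp
  choose z hz0 hz1 using hz
  refine ⟨x', fun k => ?_, ?_⟩
  · rw [hz1 k]
    exact mul_ne_zero ((hy1 (φ j)).1 k) (pow_ne_zero _ (hz0 k))
  · have e' : (fun k => val (c₀ k) x') = fun k => val (c (φ j) k) (y (φ j)) * z k ^ 2 := by
      funext k
      exact hz1 k
    rw [e']
    exact T.sq K _ z hz0 (hy1 (φ j)).2

end Pool.Agent.N514.PN
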